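import Pool.Agent.Q74.PD.Stm6
import Pool.Agent.Q204.PDP.Par

/-!
# Project PD, job Fpa: the law of the first passage position
-/

set_option autoImplicit false

namespace Pool.Agent.Q223.PD

open Finset Filter Topology MeasureTheory
open Pool.Agent.H499R2.ND Pool.Agent.H320R2.PD Pool.Agent.Y856.PD Pool.Agent.Q74.PD
open Pool.Agent.Q204.PDP (oc oc_le oc_emod oc_period card_many_odd card_period_le iter_affine Td_add rho rho_pos
  rho_lt)

/-! ## eventually constant predicates -/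

/-- `p` is eventually constant -/
def EC (p : ℝ → Prop) : Prop := (∀ᶠ y in atTop, p y) ∨ ∀ᶠ y in atTop, ¬ p y

theorem EC.not {p : ℝ → Prop} (h : EC p) : EC (fun y => ¬ p y) := by
  rcases h with h | h
  · right
    filter_upwards [h] with y hy hn
    exact hn hy
  · left
    exact h

theorem EC.and {p q : ℝ → Prop} (hp : EC p) (hq : EC q) : EC (fun y => p y ∧ q y) := by
  rcases hp with hp | hp
  · rcases hq with hq | hq
    · left
      filter_upwards [hp, hq] with y h1 h2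
      exact ⟨h1, h2⟩
    · right
      filter_upwards [hq] with y h2 h3
      exact h2 h3.2
  · right
    filter_upwards [hp] with y h2 h3
    exact h2 h3.1

theorem EC.const (p : Prop) : EC (fun _ => p) := by
  by_cases h : p
  · exact Or.inl (Eventually.of_forall fun _ => h)
  · exact Or.inr (Eventually.of_forall fun _ => h)

theorem EC.ball {ι : Type*} (s : Finset ι) {p : ι → ℝ → Prop} (h : ∀ i ∈ s, EC (p i)) :
    EC (fun y => ∀ i ∈ s, p i y) := by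
  classical
  induction s using Finset.induction_on with
  | empty => exact Or.inl (Eventually.of_forall fun y i hi => absurd hi (Finset.notMem_empty i))
  | insert a s ha ih =>
    have h1 := (h a (mem_insert_self a s)).and (ih fun i hi => h i (mem_insert_of_mem hi))
    have e : (fun y => ∀ i ∈ insert a s, p i y) = fun y => p a y ∧ ∀ i ∈ s, p i y := by
      funext y
      rw [Finset.forall_mem_insert]
    rw [e]
    exact h1

theorem EC.bex {ι : Type*} (s : Finset ι) {p : ι → ℝ → Prop} (h : ∀ i ∈ s, EC (p i)) :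
    EC (fun y => ∃ i ∈ s, p i y) := by
  have h1 := (EC.ball s (p := fun i y => ¬ p i y) fun i hi => (h i hi).not).not
  have e : (fun y => ∃ i ∈ s, p i y) = fun y => ¬ ∀ i ∈ s, ¬ p i y := by
    funext y
    simp
  rw [e]
  exact h1

theorem EC.le {z : ℝ → ℝ} {b c : ℝ} (hz : Tendsto (fun y => z y / y) atTop (𝓝 b)) (hbc : b ≠ c) :
    EC (fun y => z y ≤ c * y) := by
  rcases lt_or_gt_of_ne hbc with h | h
  · left
    filter_upwards [hz.eventually_lt_const h, eventually_gt_atTop 0] with y hy hy0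
    exact ((div_lt_iff₀ hy0).1 hy).le
  · right
    filter_upwards [hz.eventually_const_lt h, eventually_gt_atTop 0] with y hy hy0
    exact not_le.2 ((lt_div_iff₀ hy0).1 hy)

theorem EC.lt {z : ℝ → ℝ} {b c : ℝ} (hz : Tendsto (fun y => z y / y) atTop (𝓝 b)) (hbc : b ≠ c) :
    EC (fun y => z y < c * y) := by
  rcases lt_or_gt_of_ne hbc with h | h
  · left
    filter_upwards [hz.eventually_lt_const h, eventually_gt_atTop 0] with y hy hy0
    exact (div_lt_iff₀ hy0).1 hy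
  · right
    filter_upwards [hz.eventually_const_lt h, eventually_gt_atTop 0] with y hy hy0
    exact not_lt.2 ((lt_div_iff₀ hy0).1 hy).le

/-- an affine function of `⌊τ y⌋` -/
theorem aff_tendsto {τ : ℝ} (hτ : 0 < τ) (A B : ℝ) :
    Tendsto (fun y : ℝ => (A + B * (⌊τ * y⌋₊ : ℝ)) / y) atTop (𝓝 (B * τ)) := by
  have h1 := (tendsto_nat_floor_mul_div_atTop hτ.le).const_mul B
  have h2 : Tendsto (fun y : ℝ => A / y) atTop (𝓝 0) := tendsto_const_nhds.div_atTop tendsto_id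
  have h3 := h2.add h1
  rw [zero_add] at h3
  refine h3.congr fun y => ?_
  ring

/-! ## counting by an integral -/

theorem floor_ii (f : ℕ → ℝ) (hf : ∀ t, |f t| ≤ 1) (a b : ℝ) :
    IntervalIntegrable (fun s : ℝ => f ⌊s⌋₊) volume a b := by
  have h1 : Measurable (fun s : ℝ => f ⌊s⌋₊) := (measurable_from_nat (f := f)).comp Nat.measurable_floor
  refine (intervalIntegrable_const (c := (1 : ℝ)) (μ := volume) (a := a) (b := b)).mono_fun
    h1.aestronglyMeasurable ?_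
  refine Eventually.of_forall fun s => ?_
  simpa using hf ⌊s⌋₊

theorem floor_int (f : ℕ → ℝ) (hf : ∀ t, |f t| ≤ 1) (T : ℕ) :
    ∫ s in (0 : ℝ)..T, f ⌊s⌋₊ = ∑ t ∈ range T, f t := by
  induction T with
  | zero => simp
  | succ T ih =>
    rw [sum_range_succ, ← ih, ← intervalIntegral.integral_add_adjacent_intervals (floor_ii f hf 0 T)
      (floor_ii f hf T ((T + 1 : ℕ) : ℝ))]
    congr 1
    have h1 : ∫ s in (T : ℝ)..((T + 1 : ℕ) : ℝ), f ⌊s⌋₊ = ∫ s in (T : ℝ)..((T + 1 : ℕ) : ℝ), f T := by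
      refine intervalIntegral.integral_congr_ae ?_
      have h2 : ∀ᵐ s : ℝ, s ≠ ((T + 1 : ℕ) : ℝ) := by
        rw [ae_iff]
        have : {a : ℝ | ¬ a ≠ ((T + 1 : ℕ) : ℝ)} = {((T + 1 : ℕ) : ℝ)} := by
          ext a; simp
        rw [this]
        exact measure_singleton _
      filter_upwards [h2] with s hs hs2
      have h3 : (T : ℝ) ≤ ((T + 1 : ℕ) : ℝ) := by push_cast; linarith
      rw [Set.uIoc_of_le h3] at hs2
      have h4 : ⌊s⌋₊ = T := by
        rw [Nat.floor_eq_iff (le_trans (Nat.cast_nonneg T) hs2.1.le)]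
        refine ⟨hs2.1.le, ?_⟩
        have := lt_of_le_of_ne hs2.2 hs
        push_cast at this
        exact this
      rw [h4]
    rw [h1, intervalIntegral.integral_const]
    push_cast
    simp

open Classical in
theorem card_int (P : ℕ → Prop) {R y : ℝ} (hR : 0 ≤ R) (hy : 1 ≤ y) (hP : ∀ t : ℕ, P t → (t : ℝ) < R * y) (T : ℕ)
    (hT : (R + 1) * y ≤ T) :
    (((range T).filter P).card : ℝ) / y = ∫ τ in (0 : ℝ)..(R + 1), if P ⌊τ * y⌋₊ then (1 : ℝ) else 0 := by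
  have hy0 : 0 < y := by linarith
  obtain ⟨f, hf⟩ : ∃ f : ℕ → ℝ, f = fun t => if P t then (1 : ℝ) else 0 := ⟨_, rfl⟩
  have hf1 : ∀ t, |f t| ≤ 1 := by
    intro t
    rw [hf]
    simp only
    split_ifs <;> simp
  have h1 : (((range T).filter P).card : ℝ) = ∑ t ∈ range T, f t := by
    rw [hf]
    simp
  have h2 := floor_int f hf1 T
  have h3 := intervalIntegral.integral_add_adjacent_intervals (floor_ii f hf1 0 ((R + 1) * y))
    (floor_ii f hf1 ((R + 1) * y) T)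
  have h4 : ∫ s in ((R + 1) * y)..(T : ℝ), f ⌊s⌋₊ = 0 := by
    have h5 : ∫ s in ((R + 1) * y)..(T : ℝ), f ⌊s⌋₊ = ∫ s in ((R + 1) * y)..(T : ℝ), (0 : ℝ) := by
      refine intervalIntegral.integral_congr fun s hs => ?_
      rw [Set.uIcc_of_le hT] at hs
      have h6 : s < (⌊s⌋₊ : ℝ) + 1 := Nat.lt_floor_add_one s
      have h7 : ¬ P ⌊s⌋₊ := by
        intro h8
        have h9 := hP _ h8
        have := hs.1
        nlinarith
      rw [hf]
      simp only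
      rw [if_neg h7]
    rw [h5]
    simp
  have h5 := intervalIntegral.integral_comp_mul_right (a := 0) (b := R + 1) (fun s : ℝ => f ⌊s⌋₊) hy0.ne'
  rw [zero_mul] at h5
  have h6 : ∫ τ in (0 : ℝ)..(R + 1), (if P ⌊τ * y⌋₊ then (1 : ℝ) else 0) =
      ∫ τ in (0 : ℝ)..(R + 1), f ⌊τ * y⌋₊ := by
    rw [hf]
  rw [h6, h5, h1, ← h2, ← h3, h4, add_zero, smul_eq_mul]
  field_simp

open Classical in
/-- limits of proportions -/
theorem prop_conv (P : ℝ → ℕ → Prop) {R : ℝ} (hR : 0 ≤ R) (hP : ∀ y t, P y t → (t : ℝ) < R * y) (Z : Set ℝ)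
    (hZ : Z.Finite) (hec : ∀ τ : ℝ, 0 < τ → τ ∉ Z → EC fun y => P y ⌊τ * y⌋₊) :
    ∃ l : ℝ, Tendsto (fun y : ℝ => (((range ⌈(R + 1) * y⌉₊).filter (P y)).card : ℝ) / y) atTop (𝓝 l) := by
  refine ⟨∫ τ in (0 : ℝ)..(R + 1), if ∀ᶠ y in atTop, P y ⌊τ * y⌋₊ then (1 : ℝ) else 0, ?_⟩
  have h1 : Tendsto (fun y : ℝ => ∫ τ in (0 : ℝ)..(R + 1), if P y ⌊τ * y⌋₊ then (1 : ℝ) else 0) atTop
      (𝓝 (∫ τ in (0 : ℝ)..(R + 1), if ∀ᶠ y in atTop, P y ⌊τ * y⌋₊ then (1 : ℝ) else 0)) := by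
    refine intervalIntegral.tendsto_integral_filter_of_dominated_convergence (fun _ => (1 : ℝ)) ?_ ?_ ?_ ?_
    · refine Eventually.of_forall fun y => ?_
      have h2 : Measurable (fun τ : ℝ => (fun t : ℕ => if P y t then (1 : ℝ) else 0) ⌊τ * y⌋₊) :=
        (measurable_from_nat (f := fun t : ℕ => if P y t then (1 : ℝ) else 0)).comp
          (Nat.measurable_floor.comp (measurable_id.mul_const y))
      exact h2.aestronglyMeasurable
    · refine Eventually.of_forall fun y => Eventually.of_forall fun τ _ => ?_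
      split_ifs <;> simp
    · exact intervalIntegrable_const
    · have hZ0 : ∀ᵐ τ : ℝ, τ ∉ Z := by
        rw [ae_iff]
        have : {a : ℝ | ¬ a ∉ Z} = Z := by ext a; simp
        rw [this]
        exact hZ.measure_zero _
      filter_upwards [hZ0] with τ hτ hτ2
      rw [Set.uIoc_of_le (by linarith : (0 : ℝ) ≤ R + 1)] at hτ2
      rcases hec τ hτ2.1 hτ with h3 | h3
      · rw [if_pos h3]
        refine tendsto_const_nhds.congr' ?_
        filter_upwards [h3] with y hy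
        rw [if_pos hy]
      · have h4 : ¬ ∀ᶠ y in atTop, P y ⌊τ * y⌋₊ := by
          intro h5
          obtain ⟨y, hy1, hy2⟩ := (h3.and h5).exists
          exact hy1 hy2
        rw [if_neg h4]
        refine tendsto_const_nhds.congr' ?_
        filter_upwards [h3] with y hy
        rw [if_neg hy]
  refine h1.congr' ?_
  filter_upwards [eventually_ge_atTop 1] with y hy
  rw [card_int (P y) hR hy (hP y) _ (Nat.le_ceil _)]

/-! ## the trajectories in a class -/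

theorem iter_class {d : ℤ} (hd : Odd d) (i : ℕ) :
    ∀ x m : ℤ, (Td d)^[i] (x + 2 ^ i * m) = (Td d)^[i] x + 3 ^ oc d i x * m := by
  induction i with
  | zero => intro x m; simp [oc]
  | succ i ih =>
    intro x m
    have e : x + 2 ^ (i + 1) * m = x + 2 * (2 ^ i * m) := by ring
    rw [e, Function.iterate_succ_apply, Function.iterate_succ_apply, Td_add hd]
    have e3 : Td d x + (if x % 2 = 0 then 1 else 3) * (2 ^ i * m) =
        Td d x + 2 ^ i * ((if x % 2 = 0 then 1 else 3) * m) := by ring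
    rw [e3, ih]
    congr 1
    rw [oc]
    split_ifs with h
    · simp
    · rw [pow_add, pow_one]; ring

/-- the `n` which pass below `y` at a time `≤ K`, with the conditions on the passage position -/
def PK (d : ℤ) (K : ℕ) (y α : ℝ) (j : ℕ) (r : ℤ) : Set ℤ :=
  {n | ∃ k ∈ range (K + 1), (∀ i ∈ range k, ¬ ((((Td d)^[i] n : ℤ) : ℝ) ≤ y)) ∧ (((Td d)^[k] n : ℤ) : ℝ) ≤ y ∧
    1 ≤ (Td d)^[k] n ∧ (((Td d)^[k] n : ℤ) : ℝ) ≤ α * y ∧ (3 : ℤ) ^ j ∣ (Td d)^[k] n - r}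

theorem pass_eq {d : ℤ} {y : ℝ} {n : ℤ} {k : ℕ} (h1 : ∀ i ∈ range k, ¬ ((((Td d)^[i] n : ℤ) : ℝ) ≤ y))
    (h2 : (((Td d)^[k] n : ℤ) : ℝ) ≤ y) : Pool.Agent.Q74.PD.pass d y n = (Td d)^[k] n := by
  classical
  unfold Pool.Agent.Q74.PD.pass
  have h : ∃ k : ℕ, (((Td d)^[k] n : ℤ) : ℝ) ≤ y := ⟨k, h2⟩
  rw [dif_pos h]
  have h3 : Nat.find h = k := by
    rw [Nat.find_eq_iff]
    exact ⟨h2, fun i hi => h1 i (mem_range.2 hi)⟩
  rw [h3]

theorem PK_sub (d : ℤ) (K : ℕ) (y α : ℝ) (j : ℕ) (r : ℤ) : PK d K y α j r ⊆ Pst d y α j r := by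
  rintro n ⟨k, _, h1, h2, h3, h4, h5⟩
  have h6 := pass_eq h1 h2
  show 1 ≤ Pool.Agent.Q74.PD.pass d y n ∧ (Pool.Agent.Q74.PD.pass d y n : ℝ) ≤ α * y ∧
    (3 : ℤ) ^ j ∣ Pool.Agent.Q74.PD.pass d y n - r
  rw [h6]
  exact ⟨h3, h4, h5⟩

theorem Pst_sub (d : ℤ) (K : ℕ) (y α : ℝ) (j : ℕ) (r : ℤ) :
    Pst d y α j r ⊆ PK d K y α j r ∪ {n | y < (((Td d)^[K] n : ℤ) : ℝ)} := by
  classical
  intro n hn
  by_cases h : ∃ k : ℕ, (((Td d)^[k] n : ℤ) : ℝ) ≤ y
  · by_cases hk : Nat.find h ≤ K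
    · left
      have h1 : ∀ i ∈ range (Nat.find h), ¬ ((((Td d)^[i] n : ℤ) : ℝ) ≤ y) :=
        fun i hi => Nat.find_min h (mem_range.1 hi)
      have h2 := Nat.find_spec h
      have h3 := pass_eq h1 h2
      obtain ⟨h4, h5, h6⟩ := hn
      rw [h3] at h4 h5 h6
      exact ⟨Nat.find h, mem_range.2 (by omega), h1, h2, h4, h5, h6⟩
    · right
      push Not at hk
      exact not_le.1 (Nat.find_min h hk)
  · exfalso
    have h1 := hn.1
    unfold Pool.Agent.Q74.PD.pass at h1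
    rw [dif_neg h] at h1
    omega

/-- the class of `v` -/
def Pv (d : ℤ) (K : ℕ) (R α : ℝ) (j : ℕ) (r : ℤ) (M v : ℕ) (y : ℝ) (t : ℕ) : Prop :=
  (1 ≤ (v : ℤ) + M * t ∧ (((v : ℤ) + M * t : ℤ) : ℝ) < R * y) ∧ (v : ℤ) + M * t ∈ PK d K y α j r

theorem iter_v {d : ℤ} (hd : Odd d) {K j : ℕ} (v t : ℕ) {i : ℕ} (hi : i ≤ K) :
    (Td d)^[i] ((v : ℤ) + ((2 ^ K * 3 ^ j : ℕ) : ℤ) * t) =
      (Td d)^[i] (v : ℤ) + 3 ^ j * (3 ^ oc d i (v : ℤ) * (2 ^ (K - i) * t)) := by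
  have e : (v : ℤ) + ((2 ^ K * 3 ^ j : ℕ) : ℤ) * t = (v : ℤ) + 2 ^ i * (2 ^ (K - i) * 3 ^ j * t) := by
    have : (2 : ℤ) ^ K = 2 ^ i * 2 ^ (K - i) := by rw [← pow_add]; congr 1; omega
    push_cast
    rw [this]
    ring
  rw [e, iter_class hd]
  ring

theorem ec_v {d : ℤ} (hd : Odd d) (K : ℕ) (R α : ℝ) (j : ℕ) (r : ℤ) (v : ℕ) : ∃ Z : Set ℝ, Z.Finite ∧
    ∀ τ : ℝ, 0 < τ → τ ∉ Z → EC fun y => Pv d K R α j r (2 ^ K * 3 ^ j) v y ⌊τ * y⌋₊ := by
  obtain ⟨B, hB⟩ : ∃ B : ℕ → ℝ, B = fun i => 3 ^ j * (3 ^ oc d i (v : ℤ) * 2 ^ (K - i)) := ⟨_, rfl⟩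
  have hB0 : ∀ i, 0 < B i := by intro i; rw [hB]; positivity
  refine ⟨(⋃ i ∈ (range (K + 1) : Finset ℕ), ({1 / B i, α / B i} : Set ℝ)) ∪ {R / (2 ^ K * 3 ^ j)}, ?_, ?_⟩
  · refine Set.Finite.union ?_ (Set.finite_singleton _)
    refine Set.Finite.biUnion (Finset.finite_toSet _) fun i _ => ?_
    exact (Set.finite_singleton _).insert _
  intro τ hτ hZ
  rw [Set.mem_union, not_or] at hZ
  obtain ⟨hZ1, hZ2⟩ := hZ
  have hz1 : ∀ i ∈ range (K + 1), B i * τ ≠ 1 ∧ B i * τ ≠ α := by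
    intro i hi
    constructor
    · intro h
      apply hZ1
      rw [Set.mem_iUnion₂]
      refine ⟨i, hi, Or.inl ?_⟩
      rw [eq_div_iff (hB0 i).ne']
      linarith
    · intro h
      apply hZ1
      rw [Set.mem_iUnion₂]
      refine ⟨i, hi, Or.inr ?_⟩
      rw [Set.mem_singleton_iff, eq_div_iff (hB0 i).ne']
      linarith
  have hz2 : ((2 ^ K * 3 ^ j : ℕ) : ℝ) * τ ≠ R := by
    intro h
    apply hZ2
    rw [Set.mem_singleton_iff, eq_div_iff (by positivity)]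
    push_cast at h
    linarith
  -- the iterates
  have hiter : ∀ i ∈ range (K + 1), ∀ t : ℕ, (((Td d)^[i] ((v : ℤ) + ((2 ^ K * 3 ^ j : ℕ) : ℤ) * t) : ℤ) : ℝ) =
      (((Td d)^[i] (v : ℤ) : ℤ) : ℝ) + B i * t := by
    intro i hi t
    rw [iter_v hd v t (by rw [mem_range] at hi; omega), hB]
    push_cast
    ring
  have hlim : ∀ i ∈ range (K + 1), Tendsto (fun y : ℝ =>
      (((Td d)^[i] ((v : ℤ) + ((2 ^ K * 3 ^ j : ℕ) : ℤ) * (⌊τ * y⌋₊ : ℕ)) : ℤ) : ℝ) / y) atTop (𝓝 (B i * τ)) := by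
    intro i hi
    simp only [hiter i hi]
    exact aff_tendsto hτ _ _
  have hle : ∀ i ∈ range (K + 1), EC fun y : ℝ =>
      (((Td d)^[i] ((v : ℤ) + ((2 ^ K * 3 ^ j : ℕ) : ℤ) * (⌊τ * y⌋₊ : ℕ)) : ℤ) : ℝ) ≤ y := by
    intro i hi
    have h := EC.le (hlim i hi) (hz1 i hi).1
    simp only [one_mul] at h
    exact h
  have hleα : ∀ i ∈ range (K + 1), EC fun y : ℝ =>
      (((Td d)^[i] ((v : ℤ) + ((2 ^ K * 3 ^ j : ℕ) : ℤ) * (⌊τ * y⌋₊ : ℕ)) : ℤ) : ℝ) ≤ α * y :=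
    fun i hi => EC.le (hlim i hi) (hz1 i hi).2
  have hpos : ∀ i ∈ range (K + 1), EC fun y : ℝ =>
      1 ≤ (Td d)^[i] ((v : ℤ) + ((2 ^ K * 3 ^ j : ℕ) : ℤ) * (⌊τ * y⌋₊ : ℕ)) := by
    intro i hi
    left
    have h1 : 0 < B i * τ := mul_pos (hB0 i) hτ
    have h2 := (hlim i hi).eventually_const_lt h1
    filter_upwards [h2, eventually_gt_atTop 0] with y hy hy0
    rw [lt_div_iff₀ hy0, zero_mul] at hy
    have h3 : 0 < (Td d)^[i] ((v : ℤ) + ((2 ^ K * 3 ^ j : ℕ) : ℤ) * (⌊τ * y⌋₊ : ℕ)) := by exact_mod_cast hy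
    omega
  have hdvd : ∀ i ∈ range (K + 1), EC fun y : ℝ =>
      (3 : ℤ) ^ j ∣ (Td d)^[i] ((v : ℤ) + ((2 ^ K * 3 ^ j : ℕ) : ℤ) * (⌊τ * y⌋₊ : ℕ)) - r := by
    intro i hi
    have e : (fun y : ℝ => (3 : ℤ) ^ j ∣ (Td d)^[i] ((v : ℤ) + ((2 ^ K * 3 ^ j : ℕ) : ℤ) * (⌊τ * y⌋₊ : ℕ)) - r) =
        fun _ => (3 : ℤ) ^ j ∣ (Td d)^[i] (v : ℤ) - r := by
      funext y
      rw [iter_v hd v _ (by rw [mem_range] at hi; omega), eq_iff_iff]
      have e2 : (Td d)^[i] (v : ℤ) + 3 ^ j * (3 ^ oc d i (v : ℤ) * (2 ^ (K - i) * ((⌊τ * y⌋₊ : ℕ) : ℤ))) - r =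
          ((Td d)^[i] (v : ℤ) - r) + 3 ^ j * (3 ^ oc d i (v : ℤ) * (2 ^ (K - i) * ((⌊τ * y⌋₊ : ℕ) : ℤ))) := by
        ring
      rw [e2]
      exact dvd_add_left (dvd_mul_right _ _)
    rw [e]
    exact EC.const _
  have h0 : (0 : ℕ) ∈ range (K + 1) := mem_range.2 (by omega)
  have hR : EC fun y : ℝ => ((((v : ℤ) + ((2 ^ K * 3 ^ j : ℕ) : ℤ) * (⌊τ * y⌋₊ : ℕ) : ℤ)) : ℝ) < R * y := by
    refine EC.lt (b := ((2 ^ K * 3 ^ j : ℕ) : ℝ) * τ) ?_ hz2
    have h1 := aff_tendsto hτ (v : ℝ) ((2 ^ K * 3 ^ j : ℕ) : ℝ)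
    refine h1.congr fun y => ?_
    push_cast
    ring
  have hone : EC fun y : ℝ => 1 ≤ (v : ℤ) + ((2 ^ K * 3 ^ j : ℕ) : ℤ) * (⌊τ * y⌋₊ : ℕ) := by
    have := hpos 0 h0
    simpa using this
  unfold Pv PK
  refine (hone.and hR).and ?_
  refine EC.bex _ fun k hk => ?_
  refine EC.and (EC.ball _ fun i hi => ?_) ((hle k hk).and ((hpos k hk).and ((hleα k hk).and (hdvd k hk))))
  refine (hle i ?_).not
  rw [mem_range] at hi hk ⊢
  omega

open Classical in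
/-- decomposition into classes -/
theorem G_classes (S : Set ℤ) {M : ℕ} (hM : 1 ≤ M) (X : ℝ) (T : ℕ) (hT : X ≤ T) :
    G S X = ∑ v ∈ range M, (((range T).filter fun t : ℕ =>
      (1 ≤ (v : ℤ) + M * t ∧ (((v : ℤ) + M * t : ℤ) : ℝ) < X) ∧ (v : ℤ) + M * t ∈ S).card : ℝ) := by
  have hM' : (0 : ℤ) < M := by exact_mod_cast hM
  have hmap : ∀ n ∈ pos S X, (n % M).toNat ∈ range M := by
    intro n _
    have h4 := Int.emod_nonneg n hM'.ne'
    have h5 := Int.emod_lt_of_pos n hM'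
    rw [mem_range]
    omega
  unfold G
  rw [Finset.card_eq_sum_card_fiberwise hmap, Nat.cast_sum]
  refine sum_congr rfl fun v hv => ?_
  rw [mem_range] at hv
  congr 1
  refine Finset.card_nbij' (fun n => (n / M).toNat) (fun t => (v : ℤ) + M * t) ?_ ?_ ?_ ?_
  · intro n hn
    rw [Finset.mem_coe, mem_filter, mem_pos] at hn
    obtain ⟨⟨⟨h1, h2⟩, h3⟩, h4⟩ := hn
    have h5 : 0 ≤ n / M := Int.ediv_nonneg (by omega) hM'.le
    have h6 : (((n / M).toNat : ℕ) : ℤ) = n / M := Int.toNat_of_nonneg h5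
    have h7 := Int.emod_nonneg n hM'.ne'
    have h8 : (v : ℤ) = n % M := by rw [← h4, Int.toNat_of_nonneg h7]
    have h9 : (v : ℤ) + M * (n / M) = n := by rw [h8]; exact Int.emod_add_mul_ediv n M
    rw [Finset.mem_coe, mem_filter, mem_range]
    simp only [h6, h9]
    refine ⟨?_, ⟨h1, h2⟩, h3⟩
    have h10 : n / M ≤ n := Int.ediv_le_self _ (by omega)
    have h11 : (n : ℝ) < T := h2.trans_le hT
    have h12 : n < T := by exact_mod_cast h11
    omega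
  · intro t ht
    rw [Finset.mem_coe, mem_filter, mem_range] at ht
    obtain ⟨_, ⟨h1, h2⟩, h3⟩ := ht
    rw [Finset.mem_coe, mem_filter, mem_pos]
    refine ⟨⟨⟨h1, h2⟩, h3⟩, ?_⟩
    have h4 : ((v : ℤ) + M * t) % M = v := by
      rw [Int.add_mul_emod_self_left]
      exact Int.emod_eq_of_lt (by positivity) (by exact_mod_cast hv)
    rw [h4]
    simp
  · intro n hn
    rw [Finset.mem_coe, mem_filter, mem_pos] at hn
    obtain ⟨⟨⟨h1, h2⟩, h3⟩, h4⟩ := hn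
    have h5 : 0 ≤ n / M := Int.ediv_nonneg (by omega) hM'.le
    have h6 : (((n / M).toNat : ℕ) : ℤ) = n / M := Int.toNat_of_nonneg h5
    have h7 := Int.emod_nonneg n hM'.ne'
    have h8 : (v : ℤ) = n % M := by rw [← h4, Int.toNat_of_nonneg h7]
    simp only [h6]
    rw [h8]
    exact Int.emod_add_mul_ediv n M
  · intro t _
    have h4 : ((v : ℤ) + M * t) / M = t := by
      rw [Int.add_mul_ediv_left _ _ hM'.ne', Int.ediv_eq_zero_of_lt (by positivity) (by exact_mod_cast hv), zero_add]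
    simp only [h4]
    simp

theorem conv_K {d : ℤ} (hd : Odd d) (K : ℕ) {R : ℝ} (hR : 1 ≤ R) (α : ℝ) (j : ℕ) (r : ℤ) :
    ∃ l : ℝ, Tendsto (fun y : ℝ => G (PK d K y α j r) (R * y) / (R * y)) atTop (𝓝 l) := by
  classical
  have hR0 : 0 < R := by linarith
  obtain ⟨M, hM⟩ : ∃ M : ℕ, M = 2 ^ K * 3 ^ j := ⟨_, rfl⟩
  have hM1 : 1 ≤ M := by rw [hM]; exact Nat.one_le_iff_ne_zero.2 (by positivity)
  have h1 : ∀ v : ℕ, ∃ l : ℝ, Tendsto (fun y : ℝ =>
      (((range ⌈(R + 1) * y⌉₊).filter (Pv d K R α j r M v y)).card : ℝ) / y) atTop (𝓝 l) := by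
    intro v
    obtain ⟨Z, hZ, hec⟩ := ec_v hd K R α j r v
    rw [← hM] at hec
    refine prop_conv (Pv d K R α j r M v) hR0.le ?_ Z hZ hec
    intro y t h
    have h2 := h.1.2
    push_cast at h2
    have h3 : (1 : ℝ) ≤ M := by exact_mod_cast hM1
    have h4 : (t : ℝ) ≤ M * t := by
      have : (0 : ℝ) ≤ t := Nat.cast_nonneg t
      nlinarith
    have h5 : (0 : ℝ) ≤ v := Nat.cast_nonneg v
    linarith
  choose l hl using h1
  refine ⟨(∑ v ∈ range M, l v) / R, ?_⟩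
  have h2 : Tendsto (fun y : ℝ => (∑ v ∈ range M,
      (((range ⌈(R + 1) * y⌉₊).filter (Pv d K R α j r M v y)).card : ℝ) / y) / R) atTop
      (𝓝 ((∑ v ∈ range M, l v) / R)) :=
    (tendsto_finsetSum _ fun v _ => hl v).div_const R
  refine h2.congr' ?_
  filter_upwards [eventually_gt_atTop 0] with y hy
  have h3 := G_classes (PK d K y α j r) hM1 (R * y) ⌈(R + 1) * y⌉₊ (by
    refine le_trans ?_ (Nat.le_ceil _)
    nlinarith)
  rw [h3, ← Finset.sum_div, div_div, mul_comm y R]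
  refine congrArg (· / (R * y)) (sum_congr rfl fun v _ => ?_)
  refine congrArg (fun s : Finset ℕ => ((s.card : ℕ) : ℝ)) ?_
  ext t
  rw [mem_filter, mem_filter]
  exact Iff.rfl

/-! ## the late ones -/

theorem late {d : ℤ} (hd : Odd d) {R : ℝ} (hR : 1 ≤ R) (L : ℕ) (hL : 27 ^ L * R + 1 ≤ 32 ^ L) :
    ∀ᶠ y : ℝ in atTop, G {n | y < (((Td d)^[5 * L] n : ℤ) : ℝ)} (R * y) ≤ 2 * rho ^ (5 * L) * (R * y) := by
  classical
  filter_upwards [eventually_ge_atTop (|(d : ℝ)| * 3 ^ (5 * L)), eventually_ge_atTop ((2 : ℝ) ^ (5 * L)),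
    eventually_gt_atTop 0] with y hy1 hy2 hy0
  have hRy : 0 < R * y := by positivity
  have hsub : pos {n | y < (((Td d)^[5 * L] n : ℤ) : ℝ)} (R * y) ⊆
      (Finset.Icc (1 : ℤ) ⌊R * y⌋₊).filter fun n => 3 * (5 * L) ≤ 5 * oc d (5 * L) n := by
    intro n hn
    rw [mem_pos] at hn
    obtain ⟨⟨h1, h2⟩, h3⟩ := hn
    have h3' : y < (((Td d)^[5 * L] n : ℤ) : ℝ) := h3
    rw [mem_filter, Finset.mem_Icc]
    refine ⟨⟨h1, ?_⟩, ?_⟩
    · have h4 : (n.toNat : ℤ) = n := Int.toNat_of_nonneg (by omega)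
      rw [← h4]
      have h5 : n.toNat ≤ ⌊R * y⌋₊ := by
        refine Nat.le_floor ?_
        have : ((n.toNat : ℕ) : ℝ) = (n : ℝ) := by
          have := congrArg (Int.cast : ℤ → ℝ) h4
          push_cast at this ⊢
          exact_mod_cast this
        rw [this]
        exact h2.le
      exact_mod_cast h5
    · by_contra hc
      have hc' : oc d (5 * L) n ≤ 3 * L := by omega
      have haff := iter_affine hd (5 * L) n
      have h4 := (abs_le.1 haff).2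
      have h5 : (2 : ℤ) ^ (5 * L) * (Td d)^[5 * L] n ≤ 3 ^ oc d (5 * L) n * n + |d| * 3 ^ (5 * L) := by linarith
      have h6 : (2 : ℝ) ^ (5 * L) * (((Td d)^[5 * L] n : ℤ) : ℝ) ≤
          3 ^ oc d (5 * L) n * n + |(d : ℝ)| * 3 ^ (5 * L) := by
        exact_mod_cast h5
      have h7 : (3 : ℝ) ^ oc d (5 * L) n ≤ 27 ^ L := by
        have : (27 : ℝ) ^ L = 3 ^ (3 * L) := by rw [pow_mul]; norm_num
        rw [this]
        exact pow_le_pow_right₀ (by norm_num) hc'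
      have h8 : (2 : ℝ) ^ (5 * L) = 32 ^ L := by rw [pow_mul]; norm_num
      rw [h8] at h6
      have h9 : (0 : ℝ) < n := by exact_mod_cast (by omega : 0 < n)
      have h10 : (32 : ℝ) ^ L * y < 32 ^ L * (((Td d)^[5 * L] n : ℤ) : ℝ) :=
        mul_lt_mul_of_pos_left h3' (by positivity)
      have h11 : (3 : ℝ) ^ oc d (5 * L) n * n ≤ 27 ^ L * (R * y) :=
        mul_le_mul h7 h2.le h9.le (by positivity)
      have h12 : (27 ^ L * R + 1) * y ≤ 32 ^ L * y := mul_le_mul_of_nonneg_right hL hy0.le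
      nlinarith
  have h1 := card_le_card hsub
  have h2 := card_period_le (2 ^ (5 * L)) (by positivity) (fun n : ℤ => 3 * (5 * L) ≤ 5 * oc d (5 * L) n)
    (fun x => by
      have e : ((2 ^ (5 * L) : ℕ) : ℤ) = 2 ^ (5 * L) := by push_cast; ring
      rw [e, oc_emod hd]) ⌊R * y⌋₊
  have h3 := card_many_odd hd (5 * L)
  have h4 : G {n | y < (((Td d)^[5 * L] n : ℤ) : ℝ)} (R * y) ≤
      ((⌊R * y⌋₊ / 2 ^ (5 * L) + 1 : ℕ) : ℝ) *
        ((((range (2 ^ (5 * L))).filter (fun r : ℕ => 3 * (5 * L) ≤ 5 * oc d (5 * L) (r : ℤ))).card : ℕ) : ℝ) := by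
    unfold G
    exact_mod_cast h1.trans h2
  have h5 : ((⌊R * y⌋₊ / 2 ^ (5 * L) + 1 : ℕ) : ℝ) ≤ R * y / 2 ^ (5 * L) + 1 := by
    push_cast
    have h6 : ((⌊R * y⌋₊ / 2 ^ (5 * L) : ℕ) : ℝ) ≤ (⌊R * y⌋₊ : ℝ) / ((2 ^ (5 * L) : ℕ) : ℝ) := Nat.cast_div_le
    have h7 : (⌊R * y⌋₊ : ℝ) ≤ R * y := Nat.floor_le hRy.le
    have h8 : (⌊R * y⌋₊ : ℝ) / ((2 ^ (5 * L) : ℕ) : ℝ) ≤ R * y / 2 ^ (5 * L) := by
      push_cast
      exact div_le_div_of_nonneg_right h7 (by positivity)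
    linarith
  have hrho : 0 < rho ^ (5 * L) := pow_pos rho_pos _
  have h6 : G {n | y < (((Td d)^[5 * L] n : ℤ) : ℝ)} (R * y) ≤
      (R * y / 2 ^ (5 * L) + 1) * (2 ^ (5 * L) * rho ^ (5 * L)) := by
    refine h4.trans ?_
    exact mul_le_mul h5 h3 (Nat.cast_nonneg _) (by positivity)
  have h7 : (R * y / 2 ^ (5 * L) + 1) * (2 ^ (5 * L) * rho ^ (5 * L)) =
      (R * y + 2 ^ (5 * L)) * rho ^ (5 * L) := by
    field_simp
  rw [h7] at h6
  have h8 : (2 : ℝ) ^ (5 * L) ≤ R * y := by nlinarith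
  nlinarith

/-! ## the limit -/

theorem conv_of_approx {f : ℝ → ℝ} (h : ∀ ε : ℝ, 0 < ε → ∃ (g : ℝ → ℝ) (l : ℝ), Tendsto g atTop (𝓝 l) ∧
    ∀ᶠ y in atTop, |f y - g y| ≤ ε) : ∃ l : ℝ, Tendsto f atTop (𝓝 l) := by
  rw [← cauchy_map_iff_exists_tendsto, Metric.cauchy_iff]
  refine ⟨inferInstance, fun ε hε => ?_⟩
  obtain ⟨g, l, hg, hfg⟩ := h (ε / 8) (by positivity)
  have h1 : ∀ᶠ y in atTop, |g y - l| < ε / 8 := by
    have := Metric.tendsto_nhds.1 hg (ε / 8) (by positivity)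
    simpa [Real.dist_eq] using this
  have h2 : ∀ᶠ y in atTop, |f y - l| < ε / 2 := by
    filter_upwards [hfg, h1] with y hy1 hy2
    have : f y - l = (f y - g y) + (g y - l) := by ring
    rw [this]
    have := abs_add_le (f y - g y) (g y - l)
    linarith
  refine ⟨{z | |z - l| < ε / 2}, h2, ?_⟩
  intro x hx y hy
  rw [Real.dist_eq]
  have hx' : |x - l| < ε / 2 := hx
  have hy' : |y - l| < ε / 2 := hy
  rw [abs_lt] at *
  constructor <;> linarith [hx'.1, hx'.2, hy'.1, hy'.2]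

theorem fpa : S_Fpa := by
  classical
  intro d hd R hR α j r
  have hR0 : 0 < R := by linarith
  refine conv_of_approx fun ε hε => ?_
  -- the choice of `L`
  have h1 : ∀ᶠ L : ℕ in atTop, (27 : ℝ) ^ L * R + 1 ≤ 32 ^ L := by
    have h2 : Tendsto (fun L : ℕ => (27 / 32 : ℝ) ^ L * R + (1 / 32 : ℝ) ^ L) atTop (𝓝 (0 * R + 0)) :=
      ((tendsto_pow_atTop_nhds_zero_of_lt_one (by norm_num) (by norm_num)).mul_const R).add
        (tendsto_pow_atTop_nhds_zero_of_lt_one (by norm_num) (by norm_num))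
    rw [zero_mul, zero_add] at h2
    filter_upwards [h2.eventually_lt_const one_pos] with L hL
    have h3 : (0 : ℝ) < 32 ^ L := by positivity
    rw [div_pow, div_pow, one_pow, div_mul_eq_mul_div, ← add_div, div_lt_one h3] at hL
    exact hL.le
  have h2 : ∀ᶠ L : ℕ in atTop, 2 * rho ^ (5 * L) ≤ ε := by
    have h3 : Tendsto (fun L : ℕ => 2 * (rho ^ 5) ^ L) atTop (𝓝 (2 * 0)) :=
      (tendsto_pow_atTop_nhds_zero_of_lt_one (pow_nonneg rho_pos.le 5)
        (pow_lt_one₀ rho_pos.le rho_lt (by norm_num))).const_mul 2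
    rw [mul_zero] at h3
    filter_upwards [h3.eventually_lt_const hε] with L hL
    rw [pow_mul]
    exact hL.le
  obtain ⟨L, hL1, hL2⟩ := (h1.and h2).exists
  obtain ⟨l, hl⟩ := conv_K hd (5 * L) hR α j r
  refine ⟨_, l, hl, ?_⟩
  filter_upwards [late hd hR L hL1, eventually_gt_atTop 0] with y hy hy0
  have hRy : 0 < R * y := by positivity
  have h3 : G (PK d (5 * L) y α j r) (R * y) ≤ G (Pst d y α j r) (R * y) := by
    unfold G
    have : pos (PK d (5 * L) y α j r) (R * y) ⊆ pos (Pst d y α j r) (R * y) := by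
      intro n hn
      rw [mem_pos] at hn ⊢
      exact ⟨hn.1, PK_sub d (5 * L) y α j r hn.2⟩
    exact_mod_cast card_le_card this
  have h4 : G (Pst d y α j r) (R * y) ≤ G (PK d (5 * L) y α j r) (R * y) +
      G {n | y < (((Td d)^[5 * L] n : ℤ) : ℝ)} (R * y) := by
    unfold G
    have : pos (Pst d y α j r) (R * y) ⊆ pos (PK d (5 * L) y α j r) (R * y) ∪
        pos {n | y < (((Td d)^[5 * L] n : ℤ) : ℝ)} (R * y) := by
      intro n hn
      rw [mem_pos] at hn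
      rw [mem_union, mem_pos, mem_pos]
      rcases Pst_sub d (5 * L) y α j r hn.2 with h | h
      · exact Or.inl ⟨hn.1, h⟩
      · exact Or.inr ⟨hn.1, h⟩
    exact_mod_cast (card_le_card this).trans (card_union_le _ _)
  rw [← sub_div, abs_div, abs_of_pos hRy, div_le_iff₀ hRy, abs_of_nonneg (by linarith)]
  have h5 : 2 * rho ^ (5 * L) * (R * y) ≤ ε * (R * y) := mul_le_mul_of_nonneg_right hL2 hRy.le
  linarith

end Pool.Agent.Q223.PD
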